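import Pool.Agent.Work.MP_02cc39_co.Depth

set_option autoImplicit false

/-!
# Triangulations versus pointed pseudotriangulations: an inequality by half plane depth

`S` is a finite set of points of the plane, no three of them collinear.

* `Triang S`: the maximal noncrossing sets of edges between points of `S`, that is the triangulations of `S`;
* `PPT S`: the maximal ones among the noncrossing sets of edges for which at every vertex all edges are on one side
  of a line through the vertex, that is the pointed pseudotriangulations of `S` (as in the frozen statement `S06915`);
* `inner S`: the points of `S` which are no vertices of the convex hull;
* `depth S p`: the smallest number of points of `S` in an open half plane which has `p` on its boundary.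

If every interior point has depth one (it is a vertex of the convex hull of `S` minus one point), all factors of the
product are one.
-/

namespace Pool.Agent.Results.MP_02cc39_co.DepthInequality

open Pool.Agent.Work.MP_02cc39_co

theorem result : ∀ S : Finset (ℝ × ℝ), GenPos S →
    (Triang S).ncard ≤ (∏ p ∈ inner S, (2 ^ depth S p - 1)) * (PPT S).ncard :=
  fun _ hS => main hS

end Pool.Agent.Results.MP_02cc39_co.DepthInequality
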